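import Pool.Agent.V7H8.QS.Norm

set_option autoImplicit false
set_option linter.unusedSectionVars false
set_option linter.unusedVariables false

namespace Pool.Agent.V7H8.QS

universe u v w x y

variable {k : Type u} {E : Type v} {F : Type w} {M : Type x} {Ω : Type y}
  [Field k] [Field E] [Field F] [Field M] [Field Ω]
  [Algebra k E] [Algebra k F] [Algebra F M] [Algebra E Ω] [Algebra M Ω] [Algebra k Ω] [Algebra F Ω]
  [IsScalarTower k E Ω] [IsScalarTower F M Ω] [IsScalarTower k F Ω]

namespace Spl

variable (s : Spl k E F M Ω)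

/-- partial sums of a diagonal form -/
def psum (a : ℕ → k) (x : ℕ → F) (j : ℕ) : F :=
  ∑ i ∈ Finset.range j, algebraMap k F (a i) * x i ^ 2

theorem map_base (z : F) : algebraMap M Ω (algebraMap F M z) = algebraMap F Ω z :=
  (IsScalarTower.algebraMap_apply F M Ω z).symm

theorem map_base' (c : k) : algebraMap F Ω (algebraMap k F c) = algebraMap k Ω c :=
  (IsScalarTower.algebraMap_apply k F Ω c).symm

theorem chain [IsGalois k E] [IsAlgClosed Ω] {R : Subring Ω} (hR : Good k E F M Ω R)
    (h2 : (2 : k) ≠ 0) (a : ℕ → k) (x : ℕ → F) (n : ℕ) (ha : ∀ i < n, a i ≠ 0)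
    (hx : ∀ i < n, algebraMap F Ω (x i) ∈ R)
    (hu : ∀ j < n, psum a x j = 0 ∨ ∀ v : Ω, v ^ 2 = algebraMap F Ω (psum a x j) →
      v ∈ R ∧ v⁻¹ ∈ R) (j : ℕ) (hj : j < n) :
    ∀ (c : k) (w : M), c ≠ 0 → s.Fixed w → psum a x j ≠ 0 →
      algebraMap k Ω c * algebraMap M Ω w ^ 2 = algebraMap F Ω (psum a x j) →
      ∃ y : ℕ → k, ∑ i ∈ Finset.range j, a i * y i ^ 2 = c := by
  induction j with
  | zero =>
    intro c w _ _ h0 _
    exact absurd (by simp [psum]) h0
  | succ j ih =>
    intro c w hc hw h0 hcw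
    have hjn : j < n := by omega
    have haj := ha j hjn
    have hw0 : algebraMap M Ω w ≠ 0 := by
      intro h
      rw [h, zero_pow (by norm_num), mul_zero] at hcw
      exact h0 ((map_eq_zero_iff _ (algebraMap F Ω).injective).1 hcw.symm)
    have hcΩ : algebraMap k Ω c ≠ 0 := (map_ne_zero_iff _ (algebraMap k Ω).injective).2 hc
    have hsum : psum a x (j + 1) = psum a x j + algebraMap k F (a j) * x j ^ 2 := by
      rw [psum, Finset.sum_range_succ]
      rfl
    by_cases h1 : psum a x j = 0
    · -- the previous sum vanishes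
      rw [hsum, h1, zero_add, map_mul, map_pow, map_base'] at hcw
      have hmΩ : algebraMap M Ω (algebraMap F M (x j) / w) ^ 2 = algebraMap k Ω (c / a j) := by
        rw [map_div₀, map_base, div_pow, map_div₀]
        have h3 : algebraMap k Ω (a j) ≠ 0 := (map_ne_zero_iff _ (algebraMap k Ω).injective).2 haj
        field_simp
        rw [mul_comm] at hcw
        linear_combination -hcw
      obtain ⟨t, ht⟩ := s.mem_of_sq hR _ ((s.fixed_of_base (x j)).div hw) _ hmΩ
      rw [ht, ← map_pow] at hmΩ
      have h4 : t ^ 2 = c / a j := (algebraMap k Ω).injective hmΩ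
      refine ⟨fun i => if i = j then t else 0, ?_⟩
      beta_reduce
      rw [Finset.sum_range_succ, Finset.sum_eq_zero (fun i hi => ?_)]
      · rw [if_pos rfl, h4, zero_add]
        field_simp
      · have : i ≠ j := (Finset.mem_range.1 hi).ne
        rw [if_neg this]
        ring
    · have hur := (hu j hjn).resolve_left h1
      obtain ⟨c1, hc1, w1, hw1, hw1R, hw1R', hcw1⟩ := s.sq_class hR (psum a x j) h1 hur
      obtain ⟨y, hy⟩ := ih hjn c1 w1 hc1 hw1 h1 hcw1
      -- `1 / w` is in `R`
      have hc1Ω : algebraMap k Ω c1 ≠ 0 := (map_ne_zero_iff _ (algebraMap k Ω).injective).2 hc1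
      by_cases hlast : j + 1 < n
      · have hur' := (hu (j + 1) hlast).resolve_left h0
        -- compare `w` with the square root
        obtain ⟨v, hv⟩ := IsAlgClosed.exists_pow_nat_eq (algebraMap F Ω (psum a x (j + 1)))
          (n := 2) (by norm_num)
        obtain ⟨hvR, hvR'⟩ := hur' v hv
        obtain ⟨g, hg⟩ := IsAlgClosed.exists_pow_nat_eq (algebraMap k Ω c) (n := 2) (by norm_num)
        have hgR : g ∈ R := hR.rootR g ⟨c, hg.symm⟩
        have hg0 : g ≠ 0 := by
          rintro rfl
          rw [zero_pow (by norm_num)] at hg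
          exact hcΩ hg.symm
        have hwR' : (algebraMap M Ω w)⁻¹ ∈ R := by
          have h5 : (g * algebraMap M Ω w) ^ 2 = v ^ 2 := by
            rw [mul_pow, hg, hcw, hv]
          rcases sq_eq_sq_iff_eq_or_eq_neg.1 h5 with h6 | h6
          · have h7 : (algebraMap M Ω w)⁻¹ = g * v⁻¹ := by
              rw [← h6]
              field_simp
            rw [h7]
            exact mul_mem hgR hvR'
          · have h7 : (algebraMap M Ω w)⁻¹ = -(g * v⁻¹) := by
              have h8 : v = -(g * algebraMap M Ω w) := by rw [h6, neg_neg]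
              rw [h8]
              field_simp
            rw [h7]
            exact neg_mem (mul_mem hgR hvR')
        have hp1 : algebraMap M Ω (w1 / w) ∈ R := by
          rw [map_div₀, div_eq_mul_inv]
          exact mul_mem hw1R hwR'
        have hq1 : algebraMap M Ω (algebraMap F M (x j) / w) ∈ R := by
          rw [map_div₀, div_eq_mul_inv, map_base]
          exact mul_mem (hx j hjn) hwR'
        obtain ⟨y1, y2, hy12⟩ := s.norm_desc hR h2 (-(a j / c1)) (c / c1)
          (neg_ne_zero.2 (div_ne_zero haj hc1)) (div_ne_zero hc hc1) (w1 / w)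
          (algebraMap F M (x j) / w) (hw1.div hw) ((s.fixed_of_base (x j)).div hw) hp1 hq1 (by
            rw [hsum, map_add, map_mul, map_pow, map_base', ← hcw1] at hcw
            rw [map_div₀, map_div₀, map_base, map_neg, map_div₀, map_div₀]
            field_simp
            linear_combination -hcw)
        refine ⟨fun i => if i = j then y2 else y i * y1, ?_⟩
        beta_reduce
        rw [Finset.sum_range_succ]
        have h9 : ∑ i ∈ Finset.range j, a i * (if i = j then y2 else y i * y1) ^ 2 =
            c1 * y1 ^ 2 := by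
          rw [← hy, Finset.sum_mul]
          refine Finset.sum_congr rfl fun i hi => ?_
          rw [if_neg (Finset.mem_range.1 hi).ne]
          ring
        rw [h9, if_pos rfl]
        field_simp at hy12
        linear_combination hy12
      · omega

include s in
/-- **Key theorem.** Isotropy over `F` implies isotropy over `k`. -/
theorem isotropic [IsGalois k E] [IsAlgClosed Ω] {R : Subring Ω} (hR : Good k E F M Ω R)
    (h2 : (2 : k) ≠ 0) (n : ℕ) (a : ℕ → k) (x : ℕ → F)
    (hx : ∀ i < n, algebraMap F Ω (x i) ∈ R) (hx0 : ∃ i < n, x i ≠ 0)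
    (hu : ∀ j < n, psum a x j = 0 ∨ ∀ v : Ω, v ^ 2 = algebraMap F Ω (psum a x j) →
      v ∈ R ∧ v⁻¹ ∈ R) (hn : psum a x n = 0) :
    ∃ y : ℕ → k, (∃ i < n, y i ≠ 0) ∧ ∑ i ∈ Finset.range n, a i * y i ^ 2 = 0 := by
  by_cases ha : ∀ i < n, a i ≠ 0
  swap
  · push Not at ha
    obtain ⟨i0, hi0, hai⟩ := ha
    refine ⟨fun i => if i = i0 then 1 else 0, ⟨i0, hi0, by simp⟩, ?_⟩
    beta_reduce
    refine Finset.sum_eq_zero fun i _ => ?_
    by_cases h : i = i0
    · rw [h, hai, zero_mul]
    · rw [if_neg h]
      ring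
  -- the last index with `x i ≠ 0`
  have hP : ∃ m, m ≤ n ∧ (0 < m ∧ x (m - 1) ≠ 0) ∧ ∀ i, m ≤ i → i < n → x i = 0 := by
    classical
    obtain ⟨i0, hi0, hxi⟩ := hx0
    let S := (Finset.range n).filter fun i => x i ≠ 0
    have hS : S.Nonempty := ⟨i0, by simp [S, hi0, hxi]⟩
    have hmax := S.max'_mem hS
    refine ⟨S.max' hS + 1, ?_, ⟨by omega, ?_⟩, ?_⟩
    · have := (Finset.mem_filter.1 hmax).1
      rw [Finset.mem_range] at this
      omega
    · simpa using (Finset.mem_filter.1 hmax).2
    · intro i hi hin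
      by_contra hc
      have h3 : i ∈ S := Finset.mem_filter.2 ⟨Finset.mem_range.2 hin, hc⟩
      have := S.le_max' i h3
      omega
  obtain ⟨m, hmn, ⟨hm0, hxm⟩, hafter⟩ := hP
  obtain ⟨j, rfl⟩ : ∃ j, m = j + 1 := ⟨m - 1, by omega⟩
  rw [Nat.add_sub_cancel] at hxm
  have hjn : j < n := by omega
  have hz : psum a x (j + 1) = 0 := by
    rw [← hn]
    unfold psum
    refine Finset.sum_subset (Finset.range_mono hmn) fun i hi hi' => ?_
    rw [Finset.mem_range] at hi hi'
    rw [hafter i (by omega) hi]
    ring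
  have haj := ha j hjn
  have hzj : psum a x j = -(algebraMap k F (a j) * x j ^ 2) := by
    have h3 : psum a x (j + 1) = psum a x j + algebraMap k F (a j) * x j ^ 2 := by
      rw [psum, Finset.sum_range_succ]
      rfl
    rw [h3] at hz
    exact eq_neg_of_add_eq_zero_left hz
  have hzj0 : psum a x j ≠ 0 := by
    rw [hzj]
    exact neg_ne_zero.2 (mul_ne_zero ((map_ne_zero_iff _ (algebraMap k F).injective).2 haj)
      (pow_ne_zero 2 hxm))
  obtain ⟨y, hy⟩ := s.chain hR h2 a x n ha hx hu j hjn (-a j) (algebraMap F M (x j))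
    (neg_ne_zero.2 haj) (s.fixed_of_base (x j)) hzj0 (by
      rw [hzj, map_base, map_neg, map_neg, map_mul, map_pow, map_base']
      ring)
  refine ⟨fun i => if i < j then y i else if i = j then 1 else 0, ⟨j, hjn, by simp⟩, ?_⟩
  beta_reduce
  have h4 : ∑ i ∈ Finset.range n, a i * (if i < j then y i else if i = j then 1 else 0) ^ 2 =
      ∑ i ∈ Finset.range (j + 1), a i * (if i < j then y i else if i = j then 1 else 0) ^ 2 := by
    symm
    refine Finset.sum_subset (Finset.range_mono hmn) fun i hi hi' => ?_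
    rw [Finset.mem_range] at hi hi'
    rw [if_neg (by omega), if_neg (by omega)]
    ring
  rw [h4, Finset.sum_range_succ, if_neg (lt_irrefl j), if_pos rfl]
  have h5 : ∑ i ∈ Finset.range j, a i * (if i < j then y i else if i = j then 1 else 0) ^ 2 =
      ∑ i ∈ Finset.range j, a i * y i ^ 2 :=
    Finset.sum_congr rfl fun i hi => by rw [if_pos (Finset.mem_range.1 hi)]
  rw [h5, hy]
  ring

end Spl

end Pool.Agent.V7H8.QS
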