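import Mathlib

set_option autoImplicit false

namespace Pool.Agent.V7H8.QS

universe u v w x y

section kummer

variable {k : Type u} {E : Type v} [Field k] [Field E] [Algebra k E] [IsGalois k E]

/-- A quadratic character of a subgroup `H` of the Galois group with a closed kernel `N` is given by
an element of the field. -/
theorem kummer (H N : Subgroup (E ≃ₐ[k] E)) (hN : IsClosed (N : Set (E ≃ₐ[k] E)))
    (hNH : N ≤ H) (h2 : ∀ σ ∈ H, ∀ τ ∈ H, σ ∉ N → τ ∉ N → σ * τ ∈ N) :
    ∃ r : E, r ≠ 0 ∧ (∀ σ ∈ N, σ r = r) ∧ ∀ σ ∈ H, σ ∉ N → σ r = -r := by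
  by_cases h : H ≤ N
  · exact ⟨1, one_ne_zero, fun σ _ => map_one σ, fun σ hσ hσ' => absurd (h hσ) hσ'⟩
  · obtain ⟨τ, hτ, hτN⟩ := SetLike.not_le_iff_exists.1 h
    have hfix : (IntermediateField.fixedField N).fixingSubgroup = N :=
      InfiniteGalois.fixingSubgroup_fixedField ⟨N, hN⟩
    have hy : ∃ y : E, (∀ σ ∈ N, σ y = y) ∧ τ y ≠ y := by
      by_contra hc
      push Not at hc
      apply hτN
      rw [← hfix, IntermediateField.mem_fixingSubgroup_iff]
      intro x hx
      exact hc x fun σ hσ => hx ⟨σ, hσ⟩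
    obtain ⟨y, hy1, hy2⟩ := hy
    have hτi : τ⁻¹ ∈ H := H.inv_mem hτ
    have hτiN : τ⁻¹ ∉ N := fun hc => hτN (by simpa using N.inv_mem hc)
    have key : ∀ σ ∈ H, σ ∉ N → σ y = τ y := by
      intro σ hσ hσN
      have h1 : (τ⁻¹ * σ) y = y := hy1 _ (h2 _ hτi _ hσ hτiN hσN)
      calc σ y = (τ * (τ⁻¹ * σ)) y := by rw [mul_inv_cancel_left]
        _ = τ ((τ⁻¹ * σ) y) := rfl
        _ = τ y := by rw [h1]
    refine ⟨y - τ y, sub_ne_zero.2 (Ne.symm hy2), ?_, ?_⟩
    · intro σ hσ
      have h3 : σ * τ ∉ N := fun hc => hτN (by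
        have := N.mul_mem (N.inv_mem hσ) hc
        simpa using this)
      have h4 : σ (τ y) = τ y := key (σ * τ) (H.mul_mem (hNH hσ) hτ) h3
      rw [map_sub, hy1 σ hσ, h4]
    · intro σ hσ hσN
      have h4 : σ (τ y) = y := hy1 (σ * τ) (h2 σ hσ τ hτ hσN hτN)
      rw [map_sub, key σ hσ hσN, h4]
      ring

end kummer

/-- The field generated over `A` by the square roots, in `Ω`, of the elements of `A`. -/
noncomputable def root1 (A : Type u) (Ω : Type v) [Field A] [Field Ω] [Algebra A Ω] :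
    IntermediateField A Ω :=
  IntermediateField.adjoin A {x : Ω | x ^ 2 ∈ (algebraMap A Ω).range}

/-- The field generated over `A` by the square roots, in `Ω`, of the elements of `root1 A Ω`. -/
noncomputable def root2 (A : Type u) (Ω : Type v) [Field A] [Field Ω] [Algebra A Ω] :
    IntermediateField A Ω :=
  IntermediateField.adjoin A {x : Ω | x ^ 2 ∈ root1 A Ω}

section roots

variable {A : Type u} {Ω : Type v} [Field A] [Field Ω] [Algebra A Ω]

theorem mem_root1 {x : Ω} {a : A} (h : x ^ 2 = algebraMap A Ω a) : x ∈ root1 A Ω :=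
  IntermediateField.subset_adjoin _ _ ⟨a, h.symm⟩

theorem mem_root2 {x : Ω} (h : x ^ 2 ∈ root1 A Ω) : x ∈ root2 A Ω :=
  IntermediateField.subset_adjoin _ _ h

theorem root1_le_root2 : root1 A Ω ≤ root2 A Ω := fun x hx => mem_root2 (pow_mem hx 2)

theorem isAlgebraic_root1 {x : Ω} (hx : x ∈ root1 A Ω) : IsAlgebraic A x := by
  have h : Algebra.IsAlgebraic A (root1 A Ω) := by
    refine IntermediateField.isAlgebraic_adjoin fun x hx => ?_
    obtain ⟨a, ha⟩ := hx
    refine (IsIntegral.of_pow (n := 2) (by norm_num) ?_)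
    rw [← ha]
    exact isIntegral_algebraMap
  exact (h.isAlgebraic ⟨x, hx⟩).algHom (root1 A Ω).val

theorem isAlgebraic_root2 {x : Ω} (hx : x ∈ root2 A Ω) : IsAlgebraic A x := by
  have h : Algebra.IsAlgebraic A (root2 A Ω) := by
    refine IntermediateField.isAlgebraic_adjoin fun x hx => ?_
    exact (IsIntegral.of_pow (n := 2) (by norm_num) (isAlgebraic_root1 hx).isIntegral)
  exact (h.isAlgebraic ⟨x, hx⟩).algHom (root2 A Ω).val

variable {B : Type w} [Field B] [Algebra A B] [Algebra B Ω] [IsScalarTower A B Ω]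

theorem root1_mono {x : Ω} (hx : x ∈ root1 A Ω) : x ∈ root1 B Ω := by
  have h : root1 A Ω ≤ (root1 B Ω).restrictScalars A := by
    refine IntermediateField.adjoin_le_iff.2 ?_
    rintro x ⟨a, ha⟩
    exact mem_root1 (A := B) (a := algebraMap A B a)
      (by rw [← IsScalarTower.algebraMap_apply]; exact ha.symm)
  exact h hx

end roots

end Pool.Agent.V7H8.QS
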