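import Pool.Agent.V7H8.QS.Unr

set_option autoImplicit false
set_option linter.unusedSectionVars false
set_option linter.unusedVariables false

namespace Pool.Agent.V7H8.QS

universe u v

variable {k : Type u} {F : Type v} [Field k] [Field F] [Algebra k F]

/-- From sequences to vectors. -/
theorem diag_of_seq (h : ∀ (n : ℕ) (a : ℕ → k) (x : ℕ → F), (∃ i < n, x i ≠ 0) →
      ∑ i ∈ Finset.range n, algebraMap k F (a i) * x i ^ 2 = 0 →
      ∃ y : ℕ → k, (∃ i < n, y i ≠ 0) ∧ ∑ i ∈ Finset.range n, a i * y i ^ 2 = 0)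
    (n : ℕ) (a : Fin n → k) (x : Fin n → F) (hx : x ≠ 0)
    (hs : ∑ i, algebraMap k F (a i) * x i ^ 2 = 0) :
    ∃ y : Fin n → k, y ≠ 0 ∧ ∑ i, a i * y i ^ 2 = 0 := by
  classical
  let a' : ℕ → k := fun i => if h : i < n then a ⟨i, h⟩ else 0
  let x' : ℕ → F := fun i => if h : i < n then x ⟨i, h⟩ else 0
  obtain ⟨i, hi⟩ := Function.ne_iff.1 hx
  obtain ⟨y, ⟨j, hj, hyj⟩, hy⟩ := h n a' x' ⟨i, i.2, by simpa [x'] using hi⟩ (by
    rw [Finset.sum_range]
    simpa [a', x'] using hs)
  refine ⟨fun i => y i, Function.ne_iff.2 ⟨⟨j, hj⟩, hyj⟩, ?_⟩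
  rw [Finset.sum_range] at hy
  simpa [a'] using hy

/-- From diagonal forms to all forms. -/
theorem form_of_diag (h2 : (2 : k) ≠ 0)
    (h : ∀ (n : ℕ) (a : Fin n → k) (x : Fin n → F), x ≠ 0 →
      ∑ i, algebraMap k F (a i) * x i ^ 2 = 0 → ∃ y : Fin n → k, y ≠ 0 ∧ ∑ i, a i * y i ^ 2 = 0)
    (n : ℕ) (A : Matrix (Fin n) (Fin n) k) (x : Fin n → F) (hx : x ≠ 0)
    (hs : ∑ i, ∑ j, algebraMap k F (A i j) * x i * x j = 0) :
    ∃ y : Fin n → k, y ≠ 0 ∧ ∑ i, ∑ j, A i j * y i * y j = 0 := by
  classical
  let _ : Invertible (2 : k) := invertibleOfNonzero h2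
  have key : ∃ (m : ℕ) (w : Fin m → k) (e : (Fin n → k) ≃ₗ[k] (Fin m → k)), ∀ y : Fin n → k,
      ∑ l, w l * (e y l) ^ 2 = ∑ i, ∑ j, A i j * y i * y j := by
    let Q : QuadraticForm k (Fin n → k) := A.toQuadraticForm'
    have hQ : ∀ y : Fin n → k, Q y = ∑ i, ∑ j, A i j * y i * y j := by
      intro y
      show (Matrix.toLinearMap₂' k A) y y = _
      rw [Matrix.toLinearMap₂'_apply]
      refine Finset.sum_congr rfl fun i _ => Finset.sum_congr rfl fun j _ => ?_
      simp only [smul_eq_mul]
      ring
    obtain ⟨w, ⟨e⟩⟩ := QuadraticForm.equivalent_weightedSumSquares Q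
    refine ⟨_, w, e.toLinearEquiv, fun y => ?_⟩
    rw [← hQ y, ← e.map_app y, QuadraticMap.weightedSumSquares_apply]
    refine Finset.sum_congr rfl fun l _ => ?_
    rw [smul_eq_mul, pow_two]
    rfl
  obtain ⟨m, w, e, hk⟩ := key
  let P : Matrix (Fin m) (Fin n) k := LinearMap.toMatrix' e.toLinearMap
  let P' : Matrix (Fin n) (Fin m) k := LinearMap.toMatrix' e.symm.toLinearMap
  have hPe : ∀ y : Fin n → k, P.mulVec y = e y := fun y => by
    show (LinearMap.toMatrix' e.toLinearMap).mulVec y = _
    rw [LinearMap.toMatrix'_mulVec]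
    rfl
  have hPP : P' * P = 1 := by
    show LinearMap.toMatrix' _ * LinearMap.toMatrix' _ = 1
    rw [← LinearMap.toMatrix'_comp, LinearEquiv.symm_comp, LinearMap.toMatrix'_id]
  -- the coefficients
  let B : Matrix (Fin n) (Fin n) k := fun i j => ∑ l, w l * P l i * P l j
  have hexp : ∀ {L : Type v} [Field L] (φ : k →+* L) (y : Fin n → L),
      ∑ l, φ (w l) * ((P.map φ).mulVec y l) ^ 2 = ∑ i, ∑ j, φ (B i j) * y i * y j := by
    intro L _ φ y
    have h1 : ∀ l, φ (w l) * ((P.map φ).mulVec y l) ^ 2 =
        ∑ i, ∑ j, φ (w l) * φ (P l i) * φ (P l j) * y i * y j := by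
      intro l
      rw [pow_two, Matrix.mulVec, dotProduct, Finset.sum_mul_sum, Finset.mul_sum]
      refine Finset.sum_congr rfl fun i _ => ?_
      rw [Finset.mul_sum]
      refine Finset.sum_congr rfl fun j _ => ?_
      simp only [Matrix.map_apply]
      ring
    simp only [h1]
    rw [Finset.sum_comm]
    refine Finset.sum_congr rfl fun i _ => ?_
    rw [Finset.sum_comm]
    refine Finset.sum_congr rfl fun j _ => ?_
    rw [map_sum, Finset.sum_mul, Finset.sum_mul]
    refine Finset.sum_congr rfl fun l _ => ?_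
    rw [map_mul, map_mul]
  have hexpk : ∀ y : Fin n → k, ∑ i, ∑ j, B i j * y i * y j = ∑ i, ∑ j, A i j * y i * y j := by
    intro y
    rw [← hk y]
    have h1 : ∀ l, w l * (e y l) ^ 2 = ∑ i, ∑ j, w l * P l i * P l j * y i * y j := by
      intro l
      rw [← hPe y, pow_two, Matrix.mulVec, dotProduct, Finset.sum_mul_sum, Finset.mul_sum]
      refine Finset.sum_congr rfl fun i _ => ?_
      rw [Finset.mul_sum]
      refine Finset.sum_congr rfl fun j _ => ?_
      ring
    simp only [h1]
    symm
    rw [Finset.sum_comm]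
    refine Finset.sum_congr rfl fun i _ => ?_
    rw [Finset.sum_comm]
    refine Finset.sum_congr rfl fun j _ => ?_
    show _ = (∑ l, w l * P l i * P l j) * y i * y j
    rw [Finset.sum_mul, Finset.sum_mul]
  -- compare coefficients
  have hsing : ∀ (C : Matrix (Fin n) (Fin n) k) (p q : Fin n) (c d : k),
      ∑ i, ∑ j, C i j * (Pi.single p c + Pi.single q d : Fin n → k) i *
        (Pi.single p c + Pi.single q d : Fin n → k) j =
      C p p * c * c + C p q * c * d + C q p * d * c + C q q * d * d := by
    intro C p q c d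
    have h3 : ∀ (u v : Fin n) (a b : k), ∑ i, ∑ j, C i j * (Pi.single u a : Fin n → k) i *
        (Pi.single v b : Fin n → k) j = C u v * a * b := by
      intro u v a b
      rw [Finset.sum_eq_single u, Finset.sum_eq_single v]
      · rw [Pi.single_eq_same, Pi.single_eq_same]
      · intro j _ hj
        rw [Pi.single_eq_of_ne hj, mul_zero]
      · intro h
        exact absurd (Finset.mem_univ _) h
      · intro i _ hi
        refine Finset.sum_eq_zero fun j _ => ?_
        rw [Pi.single_eq_of_ne hi, mul_zero, zero_mul]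
      · intro h
        exact absurd (Finset.mem_univ _) h
    have h4 : ∀ i j, C i j * (Pi.single p c + Pi.single q d : Fin n → k) i *
        (Pi.single p c + Pi.single q d : Fin n → k) j =
        C i j * (Pi.single p c : Fin n → k) i * (Pi.single p c : Fin n → k) j +
        C i j * (Pi.single p c : Fin n → k) i * (Pi.single q d : Fin n → k) j +
        C i j * (Pi.single q d : Fin n → k) i * (Pi.single p c : Fin n → k) j +
        C i j * (Pi.single q d : Fin n → k) i * (Pi.single q d : Fin n → k) j := by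
      intro i j
      rw [Pi.add_apply, Pi.add_apply]
      ring
    simp only [h4, Finset.sum_add_distrib, h3]
  have hdiag : ∀ i, B i i = A i i := by
    intro p
    have h5 := hexpk (Pi.single p 1 + Pi.single p 0)
    rw [hsing, hsing] at h5
    simpa using h5
  have hoff : ∀ i j, B i j + B j i = A i j + A j i := by
    intro p q
    have h5 := hexpk (Pi.single p 1 + Pi.single q 1)
    rw [hsing, hsing, hdiag, hdiag] at h5
    simp only [mul_one] at h5
    linear_combination h5
  have h2F : (2 : F) ≠ 0 := by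
    intro h
    apply h2
    apply (algebraMap k F).injective
    rw [map_ofNat, map_zero, h]
  have hF : ∑ i, ∑ j, algebraMap k F (B i j) * x i * x j = 0 := by
    have h6 : ∑ i, ∑ j, (algebraMap k F (B i j) - algebraMap k F (A i j)) * x i * x j = 0 := by
      set S := ∑ i, ∑ j, (algebraMap k F (B i j) - algebraMap k F (A i j)) * x i * x j with hS
      have h7 : S = -S := by
        calc S = ∑ j, ∑ i, (algebraMap k F (B i j) - algebraMap k F (A i j)) * x i * x j := by
              rw [hS, Finset.sum_comm]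
          _ = ∑ i, ∑ j, -((algebraMap k F (B i j) - algebraMap k F (A i j)) * x i * x j) := by
              refine Finset.sum_congr rfl fun i _ => Finset.sum_congr rfl fun j _ => ?_
              have h8 := congrArg (algebraMap k F) (hoff i j)
              rw [map_add, map_add] at h8
              linear_combination x i * x j * h8
          _ = -S := by
              rw [hS, ← Finset.sum_neg_distrib]
              refine Finset.sum_congr rfl fun i _ => ?_
              rw [Finset.sum_neg_distrib]
      have h9 : (2 : F) * S = 0 := by linear_combination h7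
      exact (mul_eq_zero.1 h9).resolve_left h2F
    have h10 : ∑ i, ∑ j, algebraMap k F (B i j) * x i * x j =
        ∑ i, ∑ j, (algebraMap k F (B i j) - algebraMap k F (A i j)) * x i * x j +
        ∑ i, ∑ j, algebraMap k F (A i j) * x i * x j := by
      rw [← Finset.sum_add_distrib]
      refine Finset.sum_congr rfl fun i _ => ?_
      rw [← Finset.sum_add_distrib]
      refine Finset.sum_congr rfl fun j _ => ?_
      ring
    rw [h10, h6, hs, add_zero]
  have hz0 : (P.map (algebraMap k F)).mulVec x ≠ 0 := by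
    intro h
    apply hx
    have h11 : ((P'.map (algebraMap k F)) * (P.map (algebraMap k F))).mulVec x = x := by
      rw [← Matrix.map_mul, hPP, Matrix.map_one _ (map_zero _) (map_one _), Matrix.one_mulVec]
    rw [← h11, ← Matrix.mulVec_mulVec, h, Matrix.mulVec_zero]
  obtain ⟨z, hz, hz'⟩ := h m w _ hz0 (by rw [hexp, hF])
  refine ⟨e.symm z, ?_, ?_⟩
  · intro h
    exact hz (by rw [← e.apply_symm_apply z, h, map_zero])
  · rw [← hk, e.apply_symm_apply, hz']

end Pool.Agent.V7H8.QS
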