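import Pool.Agent.V7H8.QS.Sec

set_option autoImplicit false
set_option linter.unusedSectionVars false
set_option linter.unusedVariables false

namespace Pool.Agent.V7H8.QS

open IntermediateField

universe u v w x y

variable {k : Type u} {E : Type v} {F : Type w} {M : Type x} {Ω : Type y}
  [Field k] [Field E] [Field F] [Field M] [Field Ω]
  [Algebra k E] [Algebra k F] [Algebra F M] [Algebra E Ω] [Algebra M Ω] [Algebra k Ω] [Algebra F Ω]
  [IsScalarTower k E Ω] [IsScalarTower F M Ω] [IsScalarTower k F Ω]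

variable (k E F M Ω) in
/-- The subrings of `Ω` to which the argument applies. -/
structure Good (R : Subring Ω) : Prop where
  const : ∀ c : k, algebraMap k Ω c ∈ R
  rootE : ∀ x : Ω, x ^ 2 ∈ (algebraMap k Ω).range → x ∈ (algebraMap E Ω).range
  rootR : ∀ x : Ω, x ^ 2 ∈ (algebraMap k Ω).range → x ∈ R
  sub : ∀ x ∈ R, x ∈ (algebraMap M Ω).range
  int : ∀ x ∈ R, IsIntegral F x
  root : ∀ x : Ω, x ^ 2 ∈ R → (x ^ 2)⁻¹ ∈ R → x ∈ (algebraMap M Ω).range

namespace Spl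

variable (s : Spl k E F M Ω)

theorem integral_of_sq {v : Ω} {m : M} (hm : algebraMap M Ω m = v) (h : IsIntegral F (v ^ 2)) :
    IsIntegral F m := by
  have h1 : IsIntegral F (algebraMap M Ω m) := by
    rw [hm]
    exact IsIntegral.of_pow (n := 2) (by norm_num) h
  exact (isIntegral_algebraMap_iff (algebraMap M Ω).injective).1 h1

/-- an element of `M` fixed by the section whose square is in `k` is in `k` -/
theorem mem_of_sq [IsGalois k E] {R : Subring Ω} (hR : Good k E F M Ω R) (m : M)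
    (hm : s.Fixed m) (f : k) (hf : algebraMap M Ω m ^ 2 = algebraMap k Ω f) :
    ∃ n : k, algebraMap M Ω m = algebraMap k Ω n := by
  obtain ⟨e, he⟩ := hR.rootE _ ⟨f, hf.symm⟩
  have h1 : ∀ σ : E ≃ₐ[k] E, σ e = e := by
    intro σ
    apply (algebraMap E Ω).injective
    rw [← s.compat σ e m he.symm, hm σ, he]
  obtain ⟨n, hn⟩ := (InfiniteGalois.mem_range_algebraMap_iff_fixed (k := k) (K := E) e).2 h1
  exact ⟨n, by rw [← he, ← hn, ← IsScalarTower.algebraMap_apply]⟩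

/-- Every element of `F` is the product of an element of `k` and of the square of an element which is
fixed by the section. -/
theorem sq_class [IsGalois k E] [IsAlgClosed Ω] {R : Subring Ω} (hR : Good k E F M Ω R)
    (z : F) (hz : z ≠ 0) (hzR : ∀ v : Ω, v ^ 2 = algebraMap F Ω z → v ∈ R ∧ v⁻¹ ∈ R) :
    ∃ c : k, c ≠ 0 ∧ ∃ w : M, s.Fixed w ∧ algebraMap M Ω w ∈ R ∧ (algebraMap M Ω w)⁻¹ ∈ R ∧
      algebraMap k Ω c * algebraMap M Ω w ^ 2 = algebraMap F Ω z := by
  obtain ⟨v, hv⟩ := IsAlgClosed.exists_pow_nat_eq (algebraMap F Ω z) (n := 2) (by norm_num)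
  obtain ⟨hvR, hvR'⟩ := hzR v hv
  obtain ⟨v0, hv0⟩ := hR.sub v hvR
  have hv0' : v0 ^ 2 = algebraMap F M z := by
    apply (algebraMap M Ω).injective
    rw [map_pow, hv0, hv, ← IsScalarTower.algebraMap_apply]
  have hint : IsIntegral F v0 := integral_of_sq hv0 (by rw [hv]; exact isIntegral_algebraMap)
  obtain ⟨r, hr0, hr⟩ := s.kummer_sec ⊤ isClosed_univ v0 hint (fun σ _ => by
    rw [hv0', (s.toHom σ).commutes])
  have hrf : ∀ σ : E ≃ₐ[k] E, σ (r ^ 2) = r ^ 2 := by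
    intro σ
    rw [map_pow]
    rcases hr σ trivial with h | h
    · rw [h.2]
    · rw [h.2, neg_sq]
  obtain ⟨c, hc⟩ := (InfiniteGalois.mem_range_algebraMap_iff_fixed (k := k) (K := E) (r ^ 2)).2 hrf
  have hrc : algebraMap E Ω r ^ 2 = algebraMap k Ω c := by
    rw [← map_pow, ← hc, ← IsScalarTower.algebraMap_apply]
  have hrne : algebraMap E Ω r ≠ 0 := (map_ne_zero_iff _ (algebraMap E Ω).injective).2 hr0
  have hrΩ : algebraMap E Ω r ∈ R := hR.rootR _ ⟨c, hrc.symm⟩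
  have hrΩ' : (algebraMap E Ω r)⁻¹ ∈ R := by
    have h1 : (algebraMap E Ω r)⁻¹ = algebraMap k Ω c⁻¹ * algebraMap E Ω r := by
      rw [map_inv₀, ← hrc]
      field_simp
    rw [h1]
    exact mul_mem (hR.const _) hrΩ
  obtain ⟨r0, hr0'⟩ := hR.sub _ hrΩ
  have hr0ne : r0 ≠ 0 := by
    rintro rfl
    rw [map_zero] at hr0'
    exact hr0 ((map_eq_zero_iff _ (algebraMap E Ω).injective).1 hr0'.symm)
  refine ⟨c, ?_, v0 / r0, ?_, ?_, ?_, ?_⟩
  · rintro rfl
    rw [map_zero] at hc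
    exact hr0 (pow_eq_zero_iff (two_ne_zero) |>.1 hc.symm)
  · intro σ
    rw [map_div₀]
    rcases hr σ trivial with h | h
    · rw [h.1, s.compat_coe hr0' h.2 hr0']
    · rw [h.1, s.compat_coe (c' := -r) (z' := -r0) hr0' h.2 (by rw [map_neg, map_neg, hr0']),
        neg_div_neg_eq]
  · rw [map_div₀, hv0, hr0', div_eq_mul_inv]
    exact mul_mem hvR hrΩ'
  · rw [map_div₀, hv0, hr0', inv_div, div_eq_mul_inv]
    exact mul_mem hrΩ hvR'
  · rw [map_div₀, hv0, hr0', ← hrc, ← hv]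
    field_simp

/-- A norm from a quadratic extension in the field fixed by the section is a norm over `k`. -/
theorem norm_desc [IsGalois k E] [IsAlgClosed Ω] {R : Subring Ω} (hR : Good k E F M Ω R)
    (h2 : (2 : k) ≠ 0) (d e : k) (hd : d ≠ 0) (he : e ≠ 0)
    (p q : M) (hp : s.Fixed p) (hq : s.Fixed q) (hp1 : algebraMap M Ω p ∈ R)
    (hq1 : algebraMap M Ω q ∈ R)
    (hpq : algebraMap M Ω p ^ 2 - algebraMap k Ω d * algebraMap M Ω q ^ 2 = algebraMap k Ω e) :
    ∃ y z : k, y ^ 2 - d * z ^ 2 = e := by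
  obtain ⟨δ, hδ⟩ := IsAlgClosed.exists_pow_nat_eq (algebraMap k Ω d) (n := 2) (by norm_num)
  have hδF : δ ∈ R := hR.rootR δ ⟨d, hδ.symm⟩
  obtain ⟨δE, hδE⟩ := hR.rootE δ ⟨d, hδ.symm⟩
  obtain ⟨δM, hδM⟩ := hR.sub δ hδF
  have hδE2 : δE ^ 2 = algebraMap k E d := by
    apply (algebraMap E Ω).injective
    rw [map_pow, hδE, hδ, ← IsScalarTower.algebraMap_apply]
  have hδE0 : δE ≠ 0 := by
    rintro rfl
    rw [zero_pow (by norm_num)] at hδE2
    exact hd ((map_eq_zero_iff _ (algebraMap k E).injective).1 hδE2.symm)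
  have h2E : (2 : E) ≠ 0 := by
    intro h
    apply h2
    apply (algebraMap k E).injective
    rw [map_ofNat, map_zero, h]
  by_cases hall : ∀ σ : E ≃ₐ[k] E, σ δE = δE
  · obtain ⟨g, hg⟩ := (InfiniteGalois.mem_range_algebraMap_iff_fixed (k := k) (K := E) δE).2 hall
    have hgd : g ^ 2 = d := by
      apply (algebraMap k E).injective
      rw [map_pow, hg, hδE2]
    have hg0 : g ≠ 0 := by
      rintro rfl
      rw [zero_pow (by norm_num)] at hgd
      exact hd hgd.symm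
    refine ⟨(e + 1) / 2, (e - 1) / (2 * g), ?_⟩
    rw [← hgd]
    field_simp
    ring
  push Not at hall
  obtain ⟨τ, hτ⟩ := hall
  have hpmE : ∀ σ : E ≃ₐ[k] E, σ δE = δE ∨ σ δE = -δE := by
    intro σ
    have h1 : (σ δE) ^ 2 = δE ^ 2 := by rw [← map_pow, hδE2, σ.commutes]
    exact sq_eq_sq_iff_eq_or_eq_neg.1 h1
  have hτ' : τ δE = -δE := (hpmE τ).resolve_left hτ
  -- the subgroup fixing `δ`
  let H : Subgroup (E ≃ₐ[k] E) := MulAction.stabilizer (E ≃ₐ[k] E) δE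
  have hmemH : ∀ σ : E ≃ₐ[k] E, σ ∈ H ↔ σ δE = δE := fun σ => Iff.rfl
  have hHc : IsClosed (H : Set (E ≃ₐ[k] E)) := by
    have h1 : IsIntegral k δE := by
      refine IsIntegral.of_pow (n := 2) (by norm_num) ?_
      rw [hδE2]
      exact isIntegral_algebraMap
    exact stab_closed δE h1
  have hconj : ∀ σ ∈ H, τ⁻¹ * σ * τ ∈ H := by
    intro σ hσ
    rw [hmemH] at hσ ⊢
    show τ⁻¹ (σ (τ δE)) = δE
    rw [hτ', map_neg, hσ, ← hτ']
    show (τ⁻¹ * τ) δE = δE
    rw [inv_mul_cancel]; rfl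
  have hout : ∀ σ : E ≃ₐ[k] E, σ ∉ H → σ δE = -δE := fun σ hσ => (hpmE σ).resolve_left hσ
  have hτiE : τ⁻¹ δE = -δE := by
    have h1 : τ⁻¹ (τ δE) = δE := by
      show (τ⁻¹ * τ) δE = δE
      rw [inv_mul_cancel]; rfl
    rw [hτ', map_neg] at h1
    exact neg_eq_iff_eq_neg.1 h1
  have hcoset : ∀ σ : E ≃ₐ[k] E, σ ∉ H → τ⁻¹ * σ ∈ H ∧ σ * τ ∈ H := by
    intro σ hσ
    have h1 := hout σ hσ
    constructor
    · rw [hmemH]
      show τ⁻¹ (σ δE) = δE
      rw [h1, map_neg, hτiE, neg_neg]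
    · rw [hmemH]
      show σ (τ δE) = δE
      rw [hτ', map_neg, h1, neg_neg]
  -- the element `z = p + δ q` and its square root
  set z : M := p + δM * q with hz
  have hzΩ : algebraMap M Ω z ∈ R := by
    rw [hz, map_add, map_mul, hδM]
    exact add_mem hp1 (mul_mem hδF hq1)
  have hz1 : algebraMap M Ω z * algebraMap M Ω (p - δM * q) = algebraMap k Ω e := by
    rw [← hpq, ← hδ, ← hδM, ← map_mul, ← map_pow, ← map_pow, ← map_pow, ← map_mul, ← map_sub]
    congr 1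
    rw [hz]
    ring
  have hzΩ' : (algebraMap M Ω z)⁻¹ ∈ R := by
    have h1 : algebraMap k Ω e ≠ 0 := (map_ne_zero_iff _ (algebraMap k Ω).injective).2 he
    have h3 : algebraMap M Ω z ≠ 0 := by
      intro h
      rw [h, zero_mul] at hz1
      exact h1 hz1.symm
    have h4 : (algebraMap M Ω z)⁻¹ = algebraMap k Ω e⁻¹ * algebraMap M Ω (p - δM * q) := by
      rw [map_inv₀, ← hz1]
      have h5 : algebraMap M Ω (p - δM * q) ≠ 0 := by
        intro h
        rw [h, mul_zero] at hz1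
        exact h1 hz1.symm
      field_simp
    rw [h4, map_sub, map_mul, hδM]
    exact mul_mem (hR.const _) (sub_mem hp1 (mul_mem hδF hq1))
  have hsδ : ∀ σ : E ≃ₐ[k] E, σ δE = δE → s.toHom σ δM = δM := fun σ hσ =>
    s.compat_coe (c := δE) (c' := δE) (by rw [hδM, hδE]) hσ (by rw [hδM, hδE])
  have hsδ' : ∀ σ : E ≃ₐ[k] E, σ δE = -δE → s.toHom σ δM = -δM := fun σ hσ =>
    s.compat_coe (c := δE) (c' := -δE) (by rw [hδM, hδE]) hσ (by rw [map_neg, map_neg, hδM, hδE])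
  have hszH : ∀ σ ∈ H, s.toHom σ z = z := by
    intro σ hσ
    rw [hz, map_add, map_mul, hp σ, hq σ, hsδ σ hσ]
  have hszτ : s.toHom τ z = p - δM * q := by
    rw [hz, map_add, map_mul, hp τ, hq τ, hsδ' τ hτ']
    ring
  obtain ⟨v, hv⟩ := IsAlgClosed.exists_pow_nat_eq (algebraMap M Ω z) (n := 2) (by norm_num)
  obtain ⟨v0, hv0⟩ := hR.root v (by rw [hv]; exact hzΩ) (by rw [hv]; exact hzΩ')
  have hv0' : v0 ^ 2 = z := by
    apply (algebraMap M Ω).injective
    rw [map_pow, hv0, hv]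
  have hint : IsIntegral F v0 := integral_of_sq hv0 (by rw [hv]; exact hR.int _ hzΩ)
  obtain ⟨r, hr0, hr⟩ := s.kummer_sec H hHc v0 hint (fun σ hσ => by rw [hv0', hszH σ hσ])
  -- `r ^ 2` is in `k + k δ`
  have hr2 : ∀ σ ∈ H, σ (r ^ 2) = r ^ 2 := by
    intro σ hσ
    rw [map_pow]
    rcases hr σ hσ with h | h
    · rw [h.2]
    · rw [h.2, neg_sq]
  have hττ : τ * τ ∈ H := by
    rw [hmemH]
    show τ (τ δE) = δE
    rw [hτ', map_neg, hτ', neg_neg]
  have hfixR : ∀ σ : E ≃ₐ[k] E, (σ ∈ H → σ (τ (r ^ 2)) = τ (r ^ 2)) ∧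
      (σ ∉ H → σ (r ^ 2) = τ (r ^ 2) ∧ σ (τ (r ^ 2)) = r ^ 2) := by
    intro σ
    refine ⟨fun hσ => ?_, fun hσ => ⟨?_, ?_⟩⟩
    · have h1 := hr2 _ (hconj σ hσ)
      calc σ (τ (r ^ 2)) = τ ((τ⁻¹ * σ * τ) (r ^ 2)) := by
            show (σ * τ) (r ^ 2) = (τ * (τ⁻¹ * σ * τ)) (r ^ 2)
            congr 1
            group
        _ = τ (r ^ 2) := by rw [h1]
    · have h1 := hr2 _ (hcoset σ hσ).1
      calc σ (r ^ 2) = τ ((τ⁻¹ * σ) (r ^ 2)) := by
            show σ (r ^ 2) = (τ * (τ⁻¹ * σ)) (r ^ 2)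
            congr 1
            group
        _ = τ (r ^ 2) := by rw [h1]
    · exact hr2 _ (hcoset σ hσ).2
  obtain ⟨α, hα⟩ := (InfiniteGalois.mem_range_algebraMap_iff_fixed (k := k) (K := E)
    ((r ^ 2 + τ (r ^ 2)) / 2)).2 (by
      intro σ
      rw [map_div₀, map_add, map_ofNat]
      by_cases hσ : σ ∈ H
      · rw [hr2 σ hσ, (hfixR σ).1 hσ]
      · rw [((hfixR σ).2 hσ).1, ((hfixR σ).2 hσ).2, add_comm])
  obtain ⟨β, hβ⟩ := (InfiniteGalois.mem_range_algebraMap_iff_fixed (k := k) (K := E)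
    ((r ^ 2 - τ (r ^ 2)) / (2 * δE))).2 (by
      intro σ
      rw [map_div₀, map_sub, map_mul, map_ofNat]
      by_cases hσ : σ ∈ H
      · rw [hr2 σ hσ, (hfixR σ).1 hσ, (hmemH σ).1 hσ]
      · rw [((hfixR σ).2 hσ).1, ((hfixR σ).2 hσ).2, hout σ hσ]
        field_simp
        ring)
  have hr2e : r ^ 2 = algebraMap k E α + algebraMap k E β * δE := by
    rw [hα, hβ]
    field_simp
    ring
  have hτr2e : τ (r ^ 2) = algebraMap k E α - algebraMap k E β * δE := by
    rw [hα, hβ]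
    field_simp
    ring
  have hN : algebraMap E Ω (r ^ 2) * algebraMap E Ω (τ (r ^ 2)) =
      algebraMap k Ω (α ^ 2 - d * β ^ 2) := by
    rw [hτr2e, hr2e, ← map_mul]
    have h6 : (algebraMap k E α + algebraMap k E β * δE) *
        (algebraMap k E α - algebraMap k E β * δE) = algebraMap k E (α ^ 2 - d * β ^ 2) := by
      rw [map_sub, map_mul, map_pow, map_pow, ← hδE2]
      ring
    rw [h6, ← IsScalarTower.algebraMap_apply]
  have hrne : algebraMap E Ω (r ^ 2) ≠ 0 :=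
    (map_ne_zero_iff _ (algebraMap E Ω).injective).2 (pow_ne_zero 2 hr0)
  have hrne' : algebraMap E Ω (τ (r ^ 2)) ≠ 0 :=
    (map_ne_zero_iff _ (algebraMap E Ω).injective).2 ((map_ne_zero_iff _ τ.injective).2
      (pow_ne_zero 2 hr0))
  have hrΩ1 : algebraMap E Ω r ^ 2 ∈ R := by
    rw [← map_pow, hr2e, map_add, map_mul, ← IsScalarTower.algebraMap_apply,
      ← IsScalarTower.algebraMap_apply, hδE]
    exact add_mem (hR.const _) (mul_mem (hR.const _) hδF)
  have hrΩ1' : (algebraMap E Ω r ^ 2)⁻¹ ∈ R := by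
    have h4 : (algebraMap E Ω r ^ 2)⁻¹ =
        algebraMap k Ω (α ^ 2 - d * β ^ 2)⁻¹ * algebraMap E Ω (τ (r ^ 2)) := by
      rw [map_inv₀, ← hN, ← map_pow]
      field_simp
    rw [h4, hτr2e, map_sub, map_mul, ← IsScalarTower.algebraMap_apply,
      ← IsScalarTower.algebraMap_apply, hδE]
    exact mul_mem (hR.const _) (sub_mem (hR.const _) (mul_mem (hR.const _) hδF))
  obtain ⟨r0, hr0'⟩ := hR.root _ hrΩ1 hrΩ1'
  have hr0ne : r0 ≠ 0 := by
    rintro rfl
    rw [map_zero] at hr0'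
    exact hr0 ((map_eq_zero_iff _ (algebraMap E Ω).injective).1 hr0'.symm)
  set w : M := v0 / r0 with hw
  have hwH : ∀ σ ∈ H, s.toHom σ w = w := by
    intro σ hσ
    rw [hw, map_div₀]
    rcases hr σ hσ with h | h
    · rw [h.1, s.compat_coe hr0' h.2 hr0']
    · rw [h.1, s.compat_coe (c' := -r) (z' := -r0) hr0' h.2 (by rw [map_neg, map_neg, hr0']),
        neg_div_neg_eq]
  set n : M := w * s.toHom τ w with hn
  have hnfix : s.Fixed n := by
    intro σ
    by_cases hσ : σ ∈ H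
    · have h1 : s.toHom σ (s.toHom τ w) = s.toHom τ w := by
        calc s.toHom σ (s.toHom τ w) = s.toHom τ (s.toHom (τ⁻¹ * σ * τ) w) := by
              show (s.toHom σ * s.toHom τ) w = (s.toHom τ * s.toHom (τ⁻¹ * σ * τ)) w
              rw [← map_mul, ← map_mul]
              congr 2
              group
          _ = s.toHom τ w := by rw [hwH _ (hconj σ hσ)]
      rw [hn, map_mul, hwH σ hσ, h1]
    · have h1 : s.toHom σ w = s.toHom τ w := by
        calc s.toHom σ w = s.toHom τ (s.toHom (τ⁻¹ * σ) w) := by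
              show s.toHom σ w = (s.toHom τ * s.toHom (τ⁻¹ * σ)) w
              rw [← map_mul]
              congr 2
              group
          _ = s.toHom τ w := by rw [hwH _ (hcoset σ hσ).1]
      have h2 : s.toHom σ (s.toHom τ w) = w := by
        show (s.toHom σ * s.toHom τ) w = w
        rw [← map_mul]
        exact hwH _ (hcoset σ hσ).2
      rw [hn, map_mul, h1, h2, mul_comm]
  -- the square of `n`
  have hr0sq : algebraMap M Ω (r0 ^ 2) = algebraMap E Ω (r ^ 2) := by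
    rw [map_pow, map_pow, hr0']
  have hn2 : algebraMap M Ω n ^ 2 * algebraMap k Ω (α ^ 2 - d * β ^ 2) = algebraMap k Ω e := by
    have h1 : w ^ 2 * r0 ^ 2 = z := by
      rw [hw, div_pow, div_mul_cancel₀ _ (pow_ne_zero 2 hr0ne), hv0']
    have h3 : (s.toHom τ w) ^ 2 * s.toHom τ (r0 ^ 2) = p - δM * q := by
      rw [← map_pow, ← map_mul, h1, hszτ]
    have h4 : algebraMap M Ω (s.toHom τ (r0 ^ 2)) = algebraMap E Ω (τ (r ^ 2)) :=
      s.compat τ (r ^ 2) (r0 ^ 2) hr0sq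
    have h5 : algebraMap M Ω (r0 ^ 2) * algebraMap M Ω (s.toHom τ (r0 ^ 2)) =
        algebraMap k Ω (α ^ 2 - d * β ^ 2) := by
      rw [h4, hr0sq, hN]
    rw [← h5, ← hpq, ← map_pow, ← map_mul, ← map_mul]
    have h7 : n ^ 2 * (r0 ^ 2 * s.toHom τ (r0 ^ 2)) = (p + δM * q) * (p - δM * q) := by
      rw [← hz, ← h1, ← h3, hn]
      ring
    rw [h7]
    have h8 : algebraMap k Ω d = algebraMap M Ω (δM ^ 2) := by
      rw [map_pow, hδM, hδ]
    rw [h8, ← map_pow, ← map_pow, ← map_mul, ← map_sub]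
    congr 1
    ring
  have hN0 : α ^ 2 - d * β ^ 2 ≠ 0 := by
    intro h
    rw [h, map_zero, mul_zero] at hn2
    exact he ((map_eq_zero_iff _ (algebraMap k Ω).injective).1 hn2.symm)
  obtain ⟨m, hm⟩ := s.mem_of_sq hR n hnfix (e / (α ^ 2 - d * β ^ 2)) (by
    rw [map_div₀, ← hn2, mul_div_assoc, div_self, mul_one]
    exact (map_ne_zero_iff _ (algebraMap k Ω).injective).2 hN0)
  rw [hm, ← map_pow, ← map_mul] at hn2
  have h9 : m ^ 2 * (α ^ 2 - d * β ^ 2) = e := (algebraMap k Ω).injective hn2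
  exact ⟨m * α, m * β, by rw [← h9]; ring⟩

end Spl

end Pool.Agent.V7H8.QS
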