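import Pool.Agent.V7H8.QS.Core

set_option autoImplicit false
set_option linter.unusedSectionVars false
set_option linter.unusedVariables false

namespace Pool.Agent.V7H8.QS

open IntermediateField

universe u v w x y

section stab

variable {F : Type u} {M : Type v} [Field F] [Field M] [Algebra F M]

theorem stab_closed (m : M) (hm : IsIntegral F m) : IsClosed {τ : M ≃ₐ[F] M | τ m = m} := by
  have hfd : FiniteDimensional F F⟮m⟯ := adjoin.finiteDimensional hm
  have h := IntermediateField.fixingSubgroup_isClosed (K := F) (L := M) F⟮m⟯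
  convert h using 1
  ext τ
  simp only [Set.mem_ofPred_eq, SetLike.mem_coe]
  rw [IntermediateField.mem_fixingSubgroup_iff]
  constructor
  · intro hτ x hx
    have h1 : F⟮m⟯ ≤ fixedField (Subgroup.zpowers τ) := by
      rw [adjoin_simple_le_iff, mem_fixedField_iff]
      intro f hf
      have h2 : Subgroup.zpowers τ ≤ MulAction.stabilizer (M ≃ₐ[F] M) m := by
        rw [Subgroup.zpowers_le]
        exact hτ
      exact h2 hf
    have h3 := h1 hx
    rw [mem_fixedField_iff] at h3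
    exact h3 τ (Subgroup.mem_zpowers τ)
  · intro hτ
    exact hτ m (mem_adjoin_simple_self F m)

end stab

variable {k : Type u} {E : Type v} {F : Type w} {M : Type x} {Ω : Type y}
  [Field k] [Field E] [Field F] [Field M] [Field Ω]
  [Algebra k E] [Algebra k F] [Algebra F M] [Algebra E Ω] [Algebra M Ω] [Algebra k Ω] [Algebra F Ω]
  [IsScalarTower k E Ω] [IsScalarTower F M Ω] [IsScalarTower k F Ω]

variable (k E F M Ω) in
/-- A splitting of `Gal(M/F) → Gal(E/k)`. -/
structure Spl where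
  toHom : (E ≃ₐ[k] E) →* (M ≃ₐ[F] M)
  cont : Continuous toHom
  compat : ∀ (σ : E ≃ₐ[k] E) (c : E) (z : M), algebraMap M Ω z = algebraMap E Ω c →
    algebraMap M Ω (toHom σ z) = algebraMap E Ω (σ c)

namespace Spl

variable (s : Spl k E F M Ω)

theorem compat_coe {σ : E ≃ₐ[k] E} {c : E} {z : M} (h : algebraMap M Ω z = algebraMap E Ω c)
    {c' : E} (hc : σ c = c') {z' : M} (h' : algebraMap M Ω z' = algebraMap E Ω c') :
    s.toHom σ z = z' := by
  apply (algebraMap M Ω).injective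
  rw [s.compat σ c z h, hc, h']

theorem closed_of (H : Subgroup (E ≃ₐ[k] E)) (hH : IsClosed (H : Set (E ≃ₐ[k] E))) (m : M)
    (hm : IsIntegral F m) : IsClosed {σ : E ≃ₐ[k] E | σ ∈ H ∧ s.toHom σ m = m} :=
  hH.inter ((stab_closed m hm).preimage s.cont)

/-- the subgroup of `H` fixing `m` -/
def ker (H : Subgroup (E ≃ₐ[k] E)) (m : M) : Subgroup (E ≃ₐ[k] E) where
  carrier := {σ | σ ∈ H ∧ s.toHom σ m = m}
  one_mem' := ⟨H.one_mem, by rw [map_one]; rfl⟩
  mul_mem' := by
    rintro a b ⟨ha, ha'⟩ ⟨hb, hb'⟩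
    refine ⟨H.mul_mem ha hb, ?_⟩
    rw [map_mul]
    show s.toHom a (s.toHom b m) = m
    rw [hb', ha']
  inv_mem' := by
    rintro a ⟨ha, ha'⟩
    refine ⟨H.inv_mem ha, ?_⟩
    rw [map_inv]
    show (s.toHom a).symm m = m
    rw [AlgEquiv.symm_apply_eq, ha']

theorem mem_ker {H : Subgroup (E ≃ₐ[k] E)} {m : M} {σ : E ≃ₐ[k] E} :
    σ ∈ s.ker H m ↔ σ ∈ H ∧ s.toHom σ m = m := Iff.rfl

/-- Kummer theory along the section: a square root `v` of an element fixed by the section over `H`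
becomes fixed after division by a square root of an element fixed by `H`. -/
theorem kummer_sec [IsGalois k E] (H : Subgroup (E ≃ₐ[k] E))
    (hH : IsClosed (H : Set (E ≃ₐ[k] E))) (v : M) (hv : IsIntegral F v)
    (hf : ∀ σ ∈ H, s.toHom σ (v ^ 2) = v ^ 2) :
    ∃ r : E, r ≠ 0 ∧ ∀ σ ∈ H, (s.toHom σ v = v ∧ σ r = r) ∨ (s.toHom σ v = -v ∧ σ r = -r) := by
  have hpm : ∀ σ ∈ H, s.toHom σ v = v ∨ s.toHom σ v = -v := by
    intro σ hσ
    have h1 := hf σ hσ
    rw [map_pow] at h1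
    exact sq_eq_sq_iff_eq_or_eq_neg.1 h1
  obtain ⟨r, hr0, hr1, hr2⟩ := kummer H (s.ker H v) (s.closed_of H hH v hv) (fun σ hσ => hσ.1) (by
    intro σ hσ τ hτ hσN hτN
    have h1 : s.toHom σ v = -v := (hpm σ hσ).resolve_left fun hc => hσN ⟨hσ, hc⟩
    have h2 : s.toHom τ v = -v := (hpm τ hτ).resolve_left fun hc => hτN ⟨hτ, hc⟩
    refine ⟨H.mul_mem hσ hτ, ?_⟩
    rw [map_mul]
    show s.toHom σ (s.toHom τ v) = v
    rw [h2, map_neg, h1, neg_neg])
  refine ⟨r, hr0, fun σ hσ => ?_⟩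
  by_cases h : σ ∈ s.ker H v
  · exact Or.inl ⟨h.2, hr1 σ h⟩
  · exact Or.inr ⟨(hpm σ hσ).resolve_left fun hc => h ⟨hσ, hc⟩, hr2 σ hσ h⟩

/-- the elements of `M` which are fixed by the section -/
def Fixed (m : M) : Prop := ∀ σ : E ≃ₐ[k] E, s.toHom σ m = m

theorem fixed_of_base (z : F) : s.Fixed (algebraMap F M z) := fun σ => (s.toHom σ).commutes z

variable {s}

theorem Fixed.mul {a b : M} (ha : s.Fixed a) (hb : s.Fixed b) : s.Fixed (a * b) :=
  fun σ => by rw [map_mul, ha σ, hb σ]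

theorem Fixed.div {a b : M} (ha : s.Fixed a) (hb : s.Fixed b) : s.Fixed (a / b) :=
  fun σ => by rw [map_div₀, ha σ, hb σ]

end Spl

end Pool.Agent.V7H8.QS
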