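import Pool.Agent.V7H8.QS.Chain

set_option autoImplicit false
set_option linter.unusedSectionVars false
set_option linter.unusedVariables false

namespace Pool.Agent.V7H8.QS

open IntermediateField

universe u v w x y

section metabelian

variable {k : Type u} {E : Type v} {F : Type w} {M : Type x} {Ω : Type y}
  [Field k] [Field E] [Field F] [Field M] [Field Ω]
  [Algebra k E] [Algebra k F] [Algebra F M] [Algebra E Ω] [Algebra M Ω] [Algebra k Ω] [Algebra F Ω]
  [IsScalarTower k E Ω] [IsScalarTower F M Ω] [IsScalarTower k F Ω]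

/-- The field generated by the square roots is good. -/
theorem good_root (hE : ∀ x ∈ root1 k Ω, x ∈ (algebraMap E Ω).range)
    (hM : ∀ x ∈ root2 F Ω, x ∈ (algebraMap M Ω).range) :
    Good k E F M Ω (root1 F Ω).toSubring where
  const c := by
    show algebraMap k Ω c ∈ root1 F Ω
    rw [IsScalarTower.algebraMap_apply k F Ω]
    exact IntermediateField.algebraMap_mem _ _
  rootE x hx := by
    obtain ⟨c, hc⟩ := hx
    exact hE x (mem_root1 hc.symm)
  rootR x hx := by
    obtain ⟨c, hc⟩ := hx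
    exact root1_mono (mem_root1 (A := k) hc.symm)
  sub x hx := hM x (root1_le_root2 hx)
  int x hx := (isAlgebraic_root1 hx).isIntegral
  root x hx _ := hM x (mem_root2 hx)

theorem isotropic_root [IsGalois k E] [IsAlgClosed Ω] (h2 : (2 : k) ≠ 0)
    (hE : ∀ x ∈ root1 k Ω, x ∈ (algebraMap E Ω).range)
    (hM : ∀ x ∈ root2 F Ω, x ∈ (algebraMap M Ω).range) (s : Spl k E F M Ω) (n : ℕ) (a : ℕ → k)
    (x : ℕ → F) (hx0 : ∃ i < n, x i ≠ 0)
    (hn : ∑ i ∈ Finset.range n, algebraMap k F (a i) * x i ^ 2 = 0) :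
    ∃ y : ℕ → k, (∃ i < n, y i ≠ 0) ∧ ∑ i ∈ Finset.range n, a i * y i ^ 2 = 0 := by
  refine s.isotropic (good_root hE hM) h2 n a x (fun i _ => ?_) hx0 (fun j _ => ?_) hn
  · exact IntermediateField.algebraMap_mem _ _
  · refine Or.inr fun v hv => ?_
    have h1 : v ∈ root1 F Ω := mem_root1 hv
    exact ⟨h1, (inv_mem (S := IntermediateField F Ω) h1 : v⁻¹ ∈ root1 F Ω)⟩

end metabelian

section unramified

variable (k : Type u) (F : Type v) (Ω : Type w) [Field k] [Field F] [Field Ω] [Algebra k F]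
  [Algebra F Ω] [Algebra k Ω]

/-- The inertia group of a valuation ring of `Ω` as a subgroup of `Gal(Ω/F)`. -/
noncomputable def inertia (W : ValuationSubring Ω) : Subgroup (Ω ≃ₐ[F] Ω) :=
  (W.inertiaSubgroup F).map (W.decompositionSubgroup F).subtype

/-- The elements of `Ω` fixed by the inertia groups above `U`. -/
noncomputable def unramified (U : Set (ValuationSubring F)) : IntermediateField F Ω :=
  ⨅ W : {W : ValuationSubring Ω // W.comap (algebraMap F Ω) ∈ U},
    IntermediateField.fixedField (inertia F Ω W.1)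

variable {k F Ω}

theorem mem_unramified {U : Set (ValuationSubring F)} {x : Ω} :
    x ∈ unramified F Ω U ↔ ∀ W : ValuationSubring Ω, W.comap (algebraMap F Ω) ∈ U →
      ∀ σ ∈ inertia F Ω W, σ x = x := by
  unfold unramified
  rw [← SetLike.mem_coe, IntermediateField.coe_iInf]
  simp only [Set.mem_iInter, SetLike.mem_coe, mem_fixedField_iff, Subtype.forall]

theorem inertia_sub {W : ValuationSubring Ω} {σ : Ω ≃ₐ[F] Ω} (hσ : σ ∈ inertia F Ω W) (x : W) :
    ∃ h : σ x ∈ W, IsLocalRing.residue W ⟨σ x, h⟩ = IsLocalRing.residue W x := by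
  obtain ⟨τ, hτ, rfl⟩ := hσ
  have h1 : IsLocalRing.residue W (τ • x) = IsLocalRing.residue W x := by
    have h2 : τ • IsLocalRing.residue W x = IsLocalRing.residue W x := by
      have h3 := RingEquiv.congr_fun (MonoidHom.mem_ker.1 hτ) (IsLocalRing.residue W x)
      exact h3
    rwa [IsLocalRing.ResidueField.residue_smul]
  exact ⟨(τ • x : W).2, h1⟩

theorem mem_of_comap {W : ValuationSubring Ω} {x : F} :
    algebraMap F Ω x ∈ W ↔ x ∈ W.comap (algebraMap F Ω) := ValuationSubring.mem_comap.symm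

theorem mem_of_sq_mem {W : ValuationSubring Ω} {x : Ω} (h : x ^ 2 ∈ W) : x ∈ W := by
  by_contra hc
  have h1 : x⁻¹ ∈ W := (W.mem_or_inv_mem x).resolve_left hc
  apply hc
  have hx0 : x ≠ 0 := by
    rintro rfl
    exact hc (zero_mem W)
  have h2 : x = x ^ 2 * x⁻¹ := by
    field_simp
  rw [h2]
  exact mul_mem h h1

/-- An element whose square is a unit above `U` and unramified above `U` is unramified. -/
theorem unr_of_sq (h2 : (2 : Ω) ≠ 0) {U : Set (ValuationSubring F)} {x : Ω}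
    (hx : x ^ 2 ∈ unramified F Ω U)
    (hW : ∀ W : ValuationSubring Ω, W.comap (algebraMap F Ω) ∈ U →
      x ^ 2 ∈ W ∧ (x ^ 2)⁻¹ ∈ W ∧ (2 : Ω)⁻¹ ∈ W) : x ∈ unramified F Ω U := by
  by_cases hx0 : x = 0
  · rw [hx0]
    exact zero_mem _
  rw [mem_unramified] at hx ⊢
  intro W hWU σ hσ
  obtain ⟨h3, h4, h5⟩ := hW W hWU
  have h6 : (σ x) ^ 2 = x ^ 2 := by rw [← map_pow, hx W hWU σ hσ]
  rcases sq_eq_sq_iff_eq_or_eq_neg.1 h6 with h7 | h7
  · exact h7
  · exfalso
    have h9 := mem_of_sq_mem h3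
    obtain ⟨g1, g2⟩ := inertia_sub hσ ⟨x, h9⟩
    have h10 : (⟨σ x, g1⟩ : W) - ⟨x, h9⟩ ∈ IsLocalRing.maximalIdeal W := by
      rw [← IsLocalRing.residue_eq_zero_iff, map_sub, g2, sub_self]
    have h11 : IsUnit ((⟨σ x, g1⟩ : W) - ⟨x, h9⟩) := by
      have h12 : (x : Ω)⁻¹ ∈ W := mem_of_sq_mem (by rw [inv_pow]; exact h4)
      refine IsUnit.of_mul_eq_one (⟨-(2 : Ω)⁻¹ * x⁻¹, mul_mem (neg_mem h5) h12⟩ : W) ?_
      apply Subtype.ext
      show (σ x - x) * (-(2 : Ω)⁻¹ * x⁻¹) = 1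
      rw [h7]
      field_simp
      ring
    exact (IsLocalRing.mem_maximalIdeal _).1 h10 h11

variable (k F Ω) in
/-- The unramified elements which are integral above `U`. -/
noncomputable def intRing (U : Set (ValuationSubring F)) : Subring Ω where
  carrier := {x | x ∈ unramified F Ω U ∧ ∀ W : ValuationSubring Ω,
    W.comap (algebraMap F Ω) ∈ U → x ∈ W}
  zero_mem' := ⟨zero_mem _, fun W _ => zero_mem W⟩
  one_mem' := ⟨one_mem _, fun W _ => one_mem W⟩
  add_mem' := fun ha hb => ⟨add_mem ha.1 hb.1, fun W hW => add_mem (ha.2 W hW) (hb.2 W hW)⟩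
  neg_mem' := fun ha => ⟨neg_mem ha.1, fun W hW => neg_mem (ha.2 W hW)⟩
  mul_mem' := fun ha hb => ⟨mul_mem ha.1 hb.1, fun W hW => mul_mem (ha.2 W hW) (hb.2 W hW)⟩

theorem mem_intRing {U : Set (ValuationSubring F)} {x : Ω} :
    x ∈ intRing F Ω U ↔ x ∈ unramified F Ω U ∧ ∀ W : ValuationSubring Ω,
      W.comap (algebraMap F Ω) ∈ U → x ∈ W := Iff.rfl

variable [IsScalarTower k F Ω]

/-- Square roots of units above `U` are in the ring. -/
theorem intRing_root (h2 : (2 : k) ≠ 0) {U : Set (ValuationSubring F)}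
    (hU : ∀ O ∈ U, ∀ c : k, algebraMap k F c ∈ O) {x : Ω} (h3 : x ^ 2 ∈ intRing F Ω U)
    (h4 : (x ^ 2)⁻¹ ∈ intRing F Ω U) : x ∈ intRing F Ω U := by
  have h2Ω : (2 : Ω) ≠ 0 := by
    intro h
    apply h2
    apply (algebraMap k Ω).injective
    rw [map_ofNat, map_zero, h]
  refine ⟨unr_of_sq h2Ω h3.1 fun W hW => ⟨h3.2 W hW, h4.2 W hW, ?_⟩,
    fun W hW => mem_of_sq_mem (h3.2 W hW)⟩
  have h5 : (2 : Ω)⁻¹ = algebraMap F Ω (algebraMap k F (2⁻¹)) := by
    rw [← IsScalarTower.algebraMap_apply, map_inv₀, map_ofNat]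
  rw [h5, mem_of_comap]
  exact hU _ hW _

theorem good_unr [IsAlgClosure F Ω] (h2 : (2 : k) ≠ 0) {U : Set (ValuationSubring F)}
    (hU : ∀ O ∈ U, ∀ c : k, algebraMap k F c ∈ O) :
    Good k (algebraicClosure k Ω) F (unramified F Ω U) Ω (intRing F Ω U) := by
  have hcl : IsAlgClosed Ω := IsAlgClosure.isAlgClosed F
  have hconst : ∀ c : k, algebraMap k Ω c ∈ intRing F Ω U := by
    intro c
    rw [IsScalarTower.algebraMap_apply k F Ω]
    refine ⟨IntermediateField.algebraMap_mem _ _, fun W hW => ?_⟩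
    rw [mem_of_comap]
    exact hU _ hW c
  refine ⟨hconst, ?_, ?_, ?_, ?_, ?_⟩
  · rintro x ⟨c, hc⟩
    have h1 : IsAlgebraic k x := by
      refine IsIntegral.isAlgebraic (IsIntegral.of_pow (n := 2) (by norm_num) ?_)
      rw [← hc]
      exact isIntegral_algebraMap
    exact ⟨⟨x, mem_algebraicClosure_iff.2 h1⟩, rfl⟩
  · rintro x ⟨c, hc⟩
    refine intRing_root h2 hU (by rw [← hc]; exact hconst c) ?_
    rw [← hc, ← map_inv₀]
    exact hconst _
  · intro x hx
    exact ⟨⟨x, hx.1⟩, rfl⟩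
  · intro x _
    exact (IsAlgClosure.isAlgebraic.isAlgebraic x).isIntegral
  · intro x h3 h4
    exact ⟨⟨x, (intRing_root h2 hU h3 h4).1⟩, rfl⟩

end unramified

end Pool.Agent.V7H8.QS
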